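import Pool.Agent.W243.TD.Trdeg

/-!
# The relative conjecture for tori: subspaces of the Lie algebra

`G = 𝔾ₘ ^ s`, so `Ω_G = {2πi}` (up to rational multiples), `Lie G_ℂ = ℂ ^ s` and
`exp_G r = (e ^ (r 1), …, e ^ (r s))`. Let `F` be the algebraic closure of `ℚ(2πi)` in `ℂ`.

(A) Let `W` be a complex subspace of `ℂ ^ s` of dimension `ρ` which contains no nonzero rational
vector, i.e. not the Lie algebra of a subgroup `𝔾ₘ` of `G`. The set of all `r` in `W` with
`tr.deg_F F(r, exp_G r) = 0` is a rational space of dimension at most `ρ (ρ + 1)`.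

(B) `G = 𝔾ₘ`. Let `K` be a field of transcendence degree one over `ℚ` which contains `2πi`, and
`r_1, …, r_N` in `K` linearly independent over `ℚ` modulo `2πi ℚ`, `[K : ℚ(2πi)] ≤ D` and
`[K : ℚ(r_j)] ≤ D`. If `N ≥ 4 D` then `tr.deg_F F(r_j, e ^ r_j) ≥ 1` for some `j`.
-/

set_option autoImplicit false

namespace Pool.Agent.Results.MP_4aec10_nt.TorusSubspaces

open Module IntermediateField
open Pool.Agent.W243.TD

/-- `2πi`, the generator of the periods of a torus -/
noncomputable def per : ℂ := 2 * Real.pi * Complex.I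

/-- `F`, the algebraic closure of `ℚ(2πi)` in `ℂ` -/
noncomputable def F : IntermediateField ℚ ℂ :=
  (algebraicClosure (IntermediateField.adjoin ℚ {per}) ℂ).restrictScalars ℚ

/-- `tr.deg_F F(r, exp_G r)` for `G = 𝔾ₘ ^ s` and `r ∈ Lie G_ℂ = ℂ ^ s` -/
noncomputable def td {s : ℕ} (r : Fin s → ℂ) : Cardinal :=
  Algebra.trdeg F (IntermediateField.adjoin F (Set.range r ∪ Set.range fun i => Complex.exp (r i)))

theorem mem_F {x : ℂ} : x ∈ F ↔ Al per x := by
  unfold F Al
  rw [IntermediateField.mem_restrictScalars, mem_algebraicClosure_iff]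

theorem tr_per : Transcendental ℚ per := by
  intro h
  have h1 : IsAlgebraic ℚ (Complex.I) := Complex.isIntegral_rat_I.isAlgebraic
  have h2 : IsAlgebraic ℚ (2 : ℂ) := by
    have := isAlgebraic_algebraMap (R := ℚ) (A := ℂ) (2 : ℚ)
    simpa using this
  have h3 : IsAlgebraic ℚ ((Real.pi : ℂ)) := by
    have h4 : (Real.pi : ℂ) = per * (2 * Complex.I)⁻¹ := by
      unfold per
      field_simp
    rw [h4]
    exact h.mul (h2.mul h1).inv
  exact Pool.Agent.H340R2.LW.transcendental_pi_complex h3

theorem alg_F {x : ℂ} (h : IsAlgebraic F x) : x ∈ F := by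
  have h2 : ∀ x : F, Al per (x : ℂ) := fun x => mem_F.1 x.2
  exact mem_F.2 (al_trans h2 h)

theorem td_eq_zero {s : ℕ} (r : Fin s → ℂ) :
    td r = 0 ↔ ∀ i, r i ∈ F ∧ Complex.exp (r i) ∈ F := by
  unfold td
  rw [trdeg_eq_zero_iff]
  constructor
  · intro h i
    have key : ∀ x ∈ Set.range r ∪ Set.range (fun i => Complex.exp (r i)), x ∈ F := by
      intro x hx
      have h1 : IsAlgebraic F (⟨x, IntermediateField.subset_adjoin F _ hx⟩ :
        IntermediateField.adjoin F (Set.range r ∪ Set.range fun i => Complex.exp (r i))) :=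
        h.isAlgebraic _
      exact alg_F (h1.algebraMap (A := ℂ))
    exact ⟨key _ (Or.inl ⟨i, rfl⟩), key _ (Or.inr ⟨i, rfl⟩)⟩
  · intro h
    apply IntermediateField.isAlgebraic_adjoin
    rintro x (⟨i, rfl⟩ | ⟨i, rfl⟩)
    · exact isIntegral_algebraMap (R := F) (A := ℂ) (x := ⟨_, (h i).1⟩)
    · exact isIntegral_algebraMap (R := F) (A := ℂ) (x := ⟨_, (h i).2⟩)

theorem li_map {m s : ℕ} (K : IntermediateField ℚ ℂ) (v : Fin m → Fin s → K)
    (h : LinearIndependent K v) :
    LinearIndependent ℂ (fun (j : Fin m) (i : Fin s) => ((v j i : K) : ℂ)) := by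
  have hinj : LinearMap.ker (Fintype.linearCombination K v) = ⊥ := by
    rw [LinearMap.ker_eq_bot']
    intro c hc
    rw [Fintype.linearCombination_apply] at hc
    exact funext fun j => (Fintype.linearIndependent_iff.1 h) c hc j
  obtain ⟨g, hg⟩ := LinearMap.exists_leftInverse_of_injective _ hinj
  have hgv : ∀ j, g (v j) = Pi.single j 1 := by
    intro j
    have h1 := LinearMap.congr_fun hg (Pi.single j 1)
    simpa [Fintype.linearCombination_apply] using h1
  rw [Fintype.linearIndependent_iff]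
  intro c hc j0
  have h2 : ∀ j, ∑ i, (v j i) * (g (Pi.single i 1) j0) = if j = j0 then 1 else 0 := by
    intro j
    have h3 : v j = ∑ i, (v j i) • (Pi.single i (1 : K) : Fin s → K) := by
      funext i
      simp [Finset.sum_apply, Pi.single_apply]
    have h4 := congrFun (hgv j) j0
    conv_lhs at h4 => rw [h3]
    rw [map_sum, Finset.sum_apply] at h4
    simp only [map_smul, Pi.smul_apply, smul_eq_mul] at h4
    rw [h4, Pi.single_apply]
    simp [eq_comm]
  have h5 : ∀ i, ∑ j, c j * ((v j i : K) : ℂ) = 0 := by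
    intro i
    have := congrFun hc i
    simpa [Finset.sum_apply] using this
  have h6 : ∑ j, c j * ∑ i, ((v j i : K) : ℂ) * ((g (Pi.single i 1) j0 : K) : ℂ) = c j0 := by
    have h7 : ∀ j, ∑ i, ((v j i : K) : ℂ) * ((g (Pi.single i 1) j0 : K) : ℂ) =
        if j = j0 then 1 else 0 := by
      intro j
      have h8 := congrArg (fun x : K => (x : ℂ)) (h2 j)
      rw [← IntermediateField.algebraMap_apply, map_sum] at h8
      simp only [map_mul, IntermediateField.algebraMap_apply] at h8
      rw [h8]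
      split_ifs <;> simp
    simp [h7]
  rw [← h6]
  simp_rw [Finset.mul_sum]
  rw [Finset.sum_comm]
  apply Finset.sum_eq_zero
  intro i _
  have h9 := h5 i
  calc ∑ j, c j * (((v j i : K) : ℂ) * ((g (Pi.single i 1) j0 : K) : ℂ)) =
      (∑ j, c j * ((v j i : K) : ℂ)) * ((g (Pi.single i 1) j0 : K) : ℂ) := by
        rw [Finset.sum_mul]
        exact Finset.sum_congr rfl fun j _ => by ring
    _ = 0 := by rw [h9, zero_mul]

/-- the exceptional set -/
def exc {s : ℕ} (W : Submodule ℂ (Fin s → ℂ)) : Submodule ℚ (Fin s → ℂ) where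
  carrier := {r | r ∈ W ∧ ∀ i, r i ∈ F ∧ Complex.exp (r i) ∈ F}
  zero_mem' := ⟨W.zero_mem, fun i => ⟨F.zero_mem, by simp [F.one_mem]⟩⟩
  add_mem' := by
    rintro a b ⟨ha, ha'⟩ ⟨hb, hb'⟩
    refine ⟨W.add_mem ha hb, fun i => ⟨F.add_mem (ha' i).1 (hb' i).1, ?_⟩⟩
    rw [Pi.add_apply, Complex.exp_add]
    exact F.mul_mem (ha' i).2 (hb' i).2
  smul_mem' := by
    rintro q a ⟨ha, ha'⟩
    refine ⟨?_, fun i => ⟨?_, ?_⟩⟩
    · have h1 : q • a = (q : ℂ) • a := by
        funext i
        simp [Rat.smul_def]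
      rw [h1]
      exact W.smul_mem _ ha
    · rw [Pi.smul_apply]
      exact F.smul_mem (ha' i).1
    · apply alg_F
      have hd : (q.den : ℂ) ≠ 0 := by exact_mod_cast q.den_nz
      have h2 : Complex.exp ((q • a) i) ^ q.den = Complex.exp (a i) ^ q.num := by
        rw [← Complex.exp_nat_mul, ← Complex.exp_int_mul]
        congr 1
        rw [Pi.smul_apply, Rat.smul_def]
        have h3 : (q : ℂ) = (q.num : ℂ) / (q.den : ℂ) := by exact_mod_cast (Rat.num_div_den q).symm
        rw [h3]
        field_simp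
      have h4 : Complex.exp (a i) ^ q.num ∈ F := zpow_mem (ha' i).2 _
      have h5 : IsAlgebraic F (Complex.exp ((q • a) i) ^ q.den) := by
        rw [h2]
        exact isAlgebraic_algebraMap (R := F) (A := ℂ) ⟨_, h4⟩
      exact h5.of_pow q.den_pos

theorem card_le {s ρ : ℕ} (W : Submodule ℂ (Fin s → ℂ)) (hW : finrank ℂ W = ρ)
    (hq : ∀ q : Fin s → ℚ, (fun i => (q i : ℂ)) ∈ W → q = 0) {l : ℕ} (z : Fin l → Fin s → ℂ)
    (hz : ∀ p, z p ∈ exc W) (hli : LinearIndependent ℚ z) : l ≤ ρ * (ρ + 1) := by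
  classical
  have hF : ∀ x : F, Al per (x : ℂ) := fun x => mem_F.1 x.2
  set y : Fin l → Fin s → F := fun p i => ⟨z p i, ((hz p).2 i).1⟩ with hy
  set V : Submodule F (Fin s → F) := Submodule.span F (Set.range y) with hV
  have hmap : ∀ v ∈ V, (fun i => ((v i : F) : ℂ)) ∈ W := by
    intro v hv
    induction hv using Submodule.span_induction with
    | mem x hx =>
      obtain ⟨p, rfl⟩ := hx
      exact (hz p).1
    | zero => exact W.zero_mem
    | add a b _ _ ha hb => exact W.add_mem ha hb
    | smul c a _ ha => exact W.smul_mem (c : ℂ) ha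
  have hrank : finrank F V ≤ ρ := by
    set b := finBasis F V with hb
    have h1 : LinearIndependent F (fun j => ((b j : V) : Fin s → F)) :=
      b.linearIndependent.map' V.subtype (Submodule.ker_subtype V)
    have h2 := li_map F _ h1
    have h3 : LinearIndependent ℂ (fun j : Fin (finrank F V) =>
        (⟨fun i => ((((b j : V) : Fin s → F) i : F) : ℂ), hmap _ (b j).2⟩ : W)) :=
      LinearIndependent.of_comp W.subtype h2
    have h4 := h3.fintype_card_le_finrank
    rw [Fintype.card_fin, hW] at h4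
    exact h4
  have hliF : LinearIndependent ℚ y := by
    rw [Fintype.linearIndependent_iff] at hli ⊢
    intro c hc j
    apply hli c _ j
    funext i
    have h1 := congrFun hc i
    have h2 := congrArg (fun x : F => (x : ℂ)) h1
    simp only [Finset.sum_apply, Pi.smul_apply, Pi.zero_apply] at h2 ⊢
    rw [← IntermediateField.algebraMap_apply, map_sum] at h2
    simpa [Rat.smul_def, hy] using h2
  have h := gen1 per tr_per F hF s l (finrank F V) V y rfl
    (fun q hqV => hq q (by simpa using hmap _ hqV)) (fun p => Submodule.subset_span ⟨p, rfl⟩)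
    (fun p i => by rw [one_mul]; exact mem_F.1 ((hz p).2 i).2) hliF
  rw [one_mul] at h
  exact h.trans (Nat.mul_le_mul hrank (by omega))

theorem not_alg {K : IntermediateField ℚ ℂ} (h : Algebra.trdeg ℚ K = 1) :
    ¬ Algebra.IsAlgebraic ℚ K := by
  intro h1
  rw [_root_.trdeg_eq_zero_iff.2 h1] at h
  exact zero_ne_one h

theorem result :
    (∀ (s ρ : ℕ) (W : Submodule ℂ (Fin s → ℂ)), finrank ℂ W = ρ →
      (∀ q : Fin s → ℚ, (fun i => (q i : ℂ)) ∈ W → q = 0) →
      ∃ E : Submodule ℚ (Fin s → ℂ), Module.rank ℚ E ≤ (ρ * (ρ + 1) : ℕ) ∧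
        ∀ r ∈ W, td r = 0 ↔ r ∈ E) ∧
    (∀ K : IntermediateField ℚ ℂ, Algebra.trdeg ℚ K = 1 → ∀ (D N : ℕ) (z : Fin (N + 1) → K),
      (z 0 : ℂ) = per → LinearIndependent ℚ z → (∀ j, FiniteDimensional ℚ⟮z j⟯ K) →
      (∀ j, finrank ℚ⟮z j⟯ K ≤ D) → 4 * D ≤ N →
      ∃ j : Fin N, 1 ≤ td (fun _ : Fin 1 => (z j.succ : ℂ))) := by
  classical
  refine ⟨?_, ?_⟩
  · intro s ρ W hW hq
    refine ⟨exc W, ?_, ?_⟩
    · apply rank_le
      intro t ht
      have h1 : LinearIndependent ℚ (fun p : Fin t.card => ((t.equivFin.symm p : exc W) :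
          Fin s → ℂ)) := by
        have h2 := ht.map' (exc W).subtype (Submodule.ker_subtype _)
        exact h2.comp _ t.equivFin.symm.injective
      exact card_le W hW hq _ (fun p => (t.equivFin.symm p : exc W).2) h1
    · intro r hr
      rw [td_eq_zero]
      exact ⟨fun h => ⟨hr, h⟩, fun h => h.2⟩
  · intro K hK D N z hz0 hli hf hD hN
    by_contra hcon
    push Not at hcon
    have htd : ∀ j : Fin N, Complex.exp (z j.succ) ∈ F := by
      intro j
      have h1 := hcon j
      rw [Cardinal.lt_one_iff] at h1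
      exact ((td_eq_zero _).1 h1 0).2
    have hle : IntermediateField.adjoin ℚ {per} ≤ K := by
      rw [IntermediateField.adjoin_le_iff, Set.singleton_subset_iff, ← hz0]
      exact (z 0).2
    have he : ∀ j, IsAlgebraic K (Complex.exp ((1 : ℂ) * z j)) := by
      intro j
      rw [one_mul]
      refine Fin.cases ?_ (fun j => ?_) j
      · rw [hz0]
        unfold per
        rw [Complex.exp_two_pi_mul_I]
        exact isAlgebraic_one
      · have h1 := mem_F.1 (htd j)
        unfold Al at h1
        let _ : Algebra (IntermediateField.adjoin ℚ {per}) K :=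
          (IntermediateField.inclusion hle).toRingHom.toAlgebra
        have _ : IsScalarTower (IntermediateField.adjoin ℚ {per}) K ℂ :=
          IsScalarTower.of_algebraMap_eq fun x => rfl
        exact h1.extendScalars (IntermediateField.inclusion hle).injective
    have h2 := deg_1 one_ne_zero z hli hf (not_alg hK) he isAlgebraic_one 0
    have h3 : ∑ i, finrank ℚ⟮z i⟯ K ≤ (N + 1) * D := by
      refine (Finset.sum_le_sum fun i _ => hD i).trans ?_
      rw [Finset.sum_const, Finset.card_univ, Fintype.card_fin, smul_eq_mul]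
    have h4 := hD 0
    have h5 : (N + 1) ^ 2 + 3 ≤ 4 * ((N + 1) * D + D) := by omega
    nlinarith

end Pool.Agent.Results.MP_4aec10_nt.TorusSubspaces
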